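import Pool.Agent.Helper92.SGE.Goals

/-!
# Project SG (MP_a41896_nt), packet MINA: a coefficient of minimal weight
-/

set_option autoImplicit false

namespace Pool.Agent.Helper40.SGE

open Pool.Agent.Helper92.SGE Pool.Agent.Helper42.SG

theorem mina : MINA := by
  classical
  intro K _ σ _ d f θ hd hne
  have hfin : {α : σ →₀ ℕ | wt d α < θ ∧ MvPowerSeries.coeff α f ≠ 0}.Finite := by
    refine (Set.finite_Icc (0 : σ →₀ ℕ)
      (Finsupp.equivFunOnFinite.symm fun i => ⌈θ * d i⌉₊)).subset ?_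
    rintro α ⟨hα, -⟩
    refine ⟨fun i => Nat.zero_le _, fun i => ?_⟩
    rw [Finsupp.equivFunOnFinite_symm_apply_apply]
    have h0 : (0 : ℝ) < d i := by exact_mod_cast hd i
    have h1 : (α i : ℝ) / d i ≤ wt d α := by
      unfold wt
      exact Finset.single_le_sum (f := fun h => (α h : ℝ) / (d h : ℝ))
        (fun j _ => by positivity) (Finset.mem_univ i)
    have h2 : (α i : ℝ) ≤ θ * d i := by
      rw [← div_le_iff₀ h0]
      linarith
    exact_mod_cast h2.trans (Nat.le_ceil _)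
  have hS : {α : σ →₀ ℕ | wt d α < θ ∧ MvPowerSeries.coeff α f ≠ 0}.Nonempty := by
    by_contra h0
    refine hne fun α hα => ?_
    by_contra h1
    exact h0 ⟨α, hα, h1⟩
  obtain ⟨α, ⟨h1, h2⟩, h3⟩ := Set.exists_min_image _ (wt d) hfin hS
  refine ⟨α, h1, h2, fun β hβ => ?_⟩
  by_contra h4
  exact absurd (h3 β ⟨hβ.trans h1, h4⟩) (not_le.2 hβ)

end Pool.Agent.Helper40.SGE
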